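import Mathlib
import Pool.Agent.Results.MP_33e188_co.MaxLocalDimension

/-!
# Dimension and local dimension: realizers of ordinal sums, standard examples, local dimension two
-/

set_option autoImplicit false

namespace Pool.Agent.Y345.LD

open Pool.Agent.Results.MP_33e188_co.MaxLocalDimension

/-- The (Dushnik-Miller) dimension: the least `t` such that there is a realizer which consists of
`t` linear extensions of the whole poset. -/
noncomputable def dim (P : Type*) [PartialOrder P] : ℕ :=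
  sInf {t : ℕ | ∃ L : Fin t → PartialLinearExtension P,
    IsLocalRealizer L ∧ ∀ i, (L i).carrier = Set.univ}

section general

variable {P Q : Type*} [PartialOrder P] [PartialOrder Q]

/-- local realizer, any index type -/
def LR {ι : Type*} (L : ι → PartialLinearExtension P) : Prop :=
  (∀ x y : P, x < y → ∃ i, (L i).lt x y) ∧
  (∀ x y : P, ¬ x ≤ y → ¬ y ≤ x → ∃ i, (L i).lt y x)

/-- `P` has a realizer with `t` linear extensions -/
def Rz (P : Type*) [PartialOrder P] (t : ℕ) : Prop :=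
  ∃ L : Fin t → PartialLinearExtension P, IsLocalRealizer L ∧ ∀ i, (L i).carrier = Set.univ

/-- `P` has a local realizer using every element at most `t` times -/
def Loc (P : Type*) [PartialOrder P] (t : ℕ) : Prop :=
  ∃ (n : ℕ) (L : Fin n → PartialLinearExtension P),
    IsLocalRealizer L ∧ ∀ x : P, Nat.card {i : Fin n // x ∈ (L i).carrier} ≤ t

/-- the same with a member which is a linear extension of `P` -/
def Good (P : Type*) [PartialOrder P] (t : ℕ) : Prop :=
  ∃ (ι : Type) (_ : Finite ι) (L : ι → PartialLinearExtension P) (i0 : ι),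
    LR L ∧ (L i0).carrier = Set.univ ∧ ∀ x : P, Nat.card {i : ι // x ∈ (L i).carrier} ≤ t

theorem Good.loc {t : ℕ} (h : Good P t) : Loc P t := by
  obtain ⟨ι, _, L, i0, hL, -, hc⟩ := h
  obtain ⟨n, ⟨e⟩⟩ := Finite.exists_equiv_fin ι
  refine ⟨n, fun i => L (e.symm i), ⟨?_, ?_⟩, ?_⟩
  · intro x y hxy
    obtain ⟨i, hi⟩ := hL.1 x y hxy
    exact ⟨e i, by simpa using hi⟩
  · intro x y hxy hyx
    obtain ⟨i, hi⟩ := hL.2 x y hxy hyx
    exact ⟨e i, by simpa using hi⟩
  · intro x
    have : Nat.card {i : Fin n // x ∈ (L (e.symm i)).carrier} =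
        Nat.card {i : ι // x ∈ (L i).carrier} :=
      Nat.card_congr (e.symm.subtypeEquiv (fun i => Iff.rfl))
    rw [this]
    exact hc x

theorem Good.mono {s t : ℕ} (h : Good P s) (hst : s ≤ t) : Good P t := by
  obtain ⟨ι, h1, L, i0, hL, h2, hc⟩ := h
  exact ⟨ι, h1, L, i0, hL, h2, fun x => (hc x).trans hst⟩

theorem Rz.good {t : ℕ} (h : Rz P t) (ht : 1 ≤ t) : Good P t := by
  obtain ⟨L, hL, hu⟩ := h
  refine ⟨Fin t, inferInstance, L, ⟨0, ht⟩, hL, hu _, fun x => ?_⟩
  calc Nat.card {i : Fin t // x ∈ (L i).carrier} ≤ Nat.card (Fin t) :=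
        Nat.card_le_card_of_injective _ Subtype.val_injective
    _ = t := by simp

theorem Rz.loc {t : ℕ} (h : Rz P t) : Loc P t := by
  obtain ⟨L, hL, hu⟩ := h
  refine ⟨t, L, hL, fun x => ?_⟩
  calc Nat.card {i : Fin t // x ∈ (L i).carrier} ≤ Nat.card (Fin t) :=
        Nat.card_le_card_of_injective _ Subtype.val_injective
    _ = t := by simp

theorem Rz.mono {s t : ℕ} (h : Rz P s) (hs : 1 ≤ s) (hst : s ≤ t) : Rz P t := by
  obtain ⟨L, hL, hu⟩ := h
  refine ⟨fun i => if hi : i.val < s then L ⟨i.val, hi⟩ else L ⟨0, hs⟩, ⟨?_, ?_⟩, ?_⟩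
  · intro x y hxy
    obtain ⟨i, hi⟩ := hL.1 x y hxy
    refine ⟨⟨i.val, i.isLt.trans_le hst⟩, ?_⟩
    simpa using hi
  · intro x y hxy hyx
    obtain ⟨i, hi⟩ := hL.2 x y hxy hyx
    refine ⟨⟨i.val, i.isLt.trans_le hst⟩, ?_⟩
    simpa using hi
  · intro i
    by_cases hi : i.val < s
    · simp only [hi, dite_true]
      exact hu _
    · simp only [hi, dite_false]
      exact hu _

/-- restriction of a partial linear extension -/
def comap (f : P ↪o Q) (L : PartialLinearExtension Q) : PartialLinearExtension P where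
  carrier := {x | f x ∈ L.carrier}
  lt x y := L.lt (f x) (f y)
  mem_of_lt _ _ h := L.mem_of_lt _ _ h
  irrefl _ := L.irrefl _
  trans _ _ _ := L.trans _ _ _
  total _ hx _ hy hne := L.total _ hx _ hy (fun h => hne (f.injective h))
  lt_of_lt _ hx _ hy h := L.lt_of_lt _ hx _ hy (f.lt_iff_lt.2 h)

theorem LR.comap {ι : Type*} {L : ι → PartialLinearExtension Q} (hL : LR L) (f : P ↪o Q) :
    LR fun i => comap f (L i) := by
  constructor
  · intro x y hxy
    exact hL.1 _ _ (f.lt_iff_lt.2 hxy)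
  · intro x y hxy hyx
    exact hL.2 (f x) (f y) (fun h => hxy (f.le_iff_le.1 h)) (fun h => hyx (f.le_iff_le.1 h))

theorem Loc.of_embedding {t : ℕ} (f : P ↪o Q) (h : Loc Q t) : Loc P t := by
  obtain ⟨n, L, hL, hc⟩ := h
  exact ⟨n, fun i => LD.comap f (L i), LR.comap hL f, fun x => hc (f x)⟩

theorem Rz.of_embedding {t : ℕ} (f : P ↪o Q) (h : Rz Q t) : Rz P t := by
  obtain ⟨L, hL, hu⟩ := h
  refine ⟨fun i => LD.comap f (L i), LR.comap hL f, fun i => ?_⟩
  ext x
  simp [LD.comap, hu i]

/-- Dilworth: a realizer with as many linear extensions as the width -/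
theorem rz_of_width [Finite P] (w : ℕ) (hw : 1 ≤ w) (hP : width P ≤ w) : Rz P w := by
  classical
  have := Fintype.ofFinite P
  obtain ⟨f, hf1, hf2⟩ := Pool.Agent.H643R2.ChainDec.dilworth_finset _ w
    (Finset.univ : Finset P) rfl (by
      intro S _ hS
      refine (card_le_width S ?_).trans hP
      intro a ha b hb hab h
      exact hab (hS a ha b hb h))
  have hf3 : ∀ a b : P, f a = f b → a ≤ b ∨ b ≤ a :=
    fun a b h => hf2 a (Finset.mem_univ _) b (Finset.mem_univ _) h
  choose L hL1 hL2 using exists_linear f hf3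
  refine ⟨fun i => L i.val, ⟨?_, ?_⟩, ?_⟩
  · intro x y hxy
    refine ⟨⟨0, hw⟩, (L 0).lt_of_lt x ?_ y ?_ hxy⟩ <;> rw [hL1] <;> trivial
  · intro x y hxy hyx
    exact ⟨⟨f y, hf1 y (Finset.mem_univ _)⟩, hL2 _ x y hxy hyx rfl⟩
  · intro i
    exact hL1 _

theorem loc_two {t : ℕ} {x y : P} (hxy : ¬ x ≤ y) (hyx : ¬ y ≤ x) (h : Loc P t) : 2 ≤ t := by
  obtain ⟨n, L, hL, hc⟩ := h
  obtain ⟨i, hi⟩ := hL.2 x y hxy hyx
  obtain ⟨j, hj⟩ := hL.2 y x hyx hxy
  have hij : i ≠ j := by
    rintro rfl
    exact (L i).irrefl _ ((L i).trans _ _ _ hi hj)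
  refine le_trans ?_ (hc x)
  have h1 : Function.Injective (fun b : Bool => (if b then ⟨i, ((L i).mem_of_lt _ _ hi).2⟩ else
      ⟨j, ((L j).mem_of_lt _ _ hj).1⟩ : {i : Fin n // x ∈ (L i).carrier})) := by
    intro b c hbc
    have := congrArg Subtype.val hbc
    cases b <;> cases c <;> simp at this ⊢
    · exact hij this.symm
    · exact hij this
  simpa using Nat.card_le_card_of_injective _ h1

/-- **Local dimension at most two implies dimension at most two.** -/
theorem rz_two (h : Loc P 2) : Rz P 2 := by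
  classical
  obtain ⟨n, L, hL, hc⟩ := h
  let S : P → Set (Fin n) := fun x => {i | x ∈ (L i).carrier}
  let c1 : Set (Fin n) → Option (Fin n) := fun T =>
    if h : ∃ i j, T = {i, j} then some h.choose else none
  let c2 : Set (Fin n) → Option (Fin n) := fun T =>
    if h : ∃ i j, T = {i, j} then some h.choose_spec.choose else none
  -- incomparable elements lie in the same two members
  have key : ∀ x y : P, ¬ x ≤ y → ¬ y ≤ x → S x = S y ∧ ∃ i j, c1 (S x) = some i ∧
      c2 (S x) = some j ∧ S x = {i, j} := by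
    intro x y hxy hyx
    obtain ⟨i, hi⟩ := hL.2 x y hxy hyx
    obtain ⟨j, hj⟩ := hL.2 y x hyx hxy
    have hij : i ≠ j := by
      rintro rfl
      exact (L i).irrefl _ ((L i).trans _ _ _ hi hj)
    have hS : ∀ z, i ∈ S z → j ∈ S z → S z = {i, j} := by
      intro z hzi hzj
      symm
      apply Set.eq_of_subset_of_ncard_le (ht := Set.toFinite _)
      · rintro k (rfl | rfl)
        · exact hzi
        · exact hzj
      · rw [Set.ncard_pair hij]
        have h9 : (S z).ncard = Nat.card {i : Fin n // z ∈ (L i).carrier} :=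
          (Nat.card_coe_set_eq (S z)).symm
        rw [h9]
        exact hc z
    have hx := hS x ((L i).mem_of_lt _ _ hi).2 ((L j).mem_of_lt _ _ hj).1
    have hy := hS y ((L i).mem_of_lt _ _ hi).1 ((L j).mem_of_lt _ _ hj).2
    refine ⟨hx.trans hy.symm, ?_⟩
    have hex : ∃ i j, S x = {i, j} := ⟨i, j, hx⟩
    exact ⟨hex.choose, hex.choose_spec.choose, dif_pos hex, dif_pos hex, hex.choose_spec.choose_spec⟩
  -- the two orders
  let lt : (Set (Fin n) → Option (Fin n)) → P → P → Prop := fun c x y =>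
    x < y ∨ (¬ x ≤ y ∧ ¬ y ≤ x ∧ ∃ i, c (S x) = some i ∧ (L i).lt x y)
  have mk : ∀ c : Set (Fin n) → Option (Fin n),
      (∀ x y : P, ¬ x ≤ y → ¬ y ≤ x → ∃ i, c (S x) = some i ∧ i ∈ S x) →
      ∃ M : PartialLinearExtension P, M.carrier = Set.univ ∧ M.lt = lt c := by
    intro c hcS
    refine ⟨⟨Set.univ, lt c, fun _ _ _ => ⟨trivial, trivial⟩, ?_, ?_, ?_, ?_⟩, rfl, rfl⟩
    · rintro x (h | ⟨h, -⟩)
      · exact lt_irrefl _ h
      · exact h le_rfl
    · rintro x y z (hxy | ⟨hxy, hyx, i, hi, hli⟩) (hyz | ⟨hyz, hzy, j, hj, hlj⟩)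
      · exact Or.inl (hxy.trans hyz)
      · by_cases hxz : x < z
        · exact Or.inl hxz
        have hzx : ¬ z ≤ x := fun h => hzy (h.trans hxy.le)
        have hxz' : ¬ x ≤ z := fun h => (lt_or_eq_of_le h).elim hxz (fun e => hzx e.ge)
        refine Or.inr ⟨hxz', hzx, ?_⟩
        have h1 := (key x z hxz' hzx).1
        have h2 := (key y z hyz hzy).1
        refine ⟨j, by rw [h1, ← h2]; exact hj, ?_⟩
        have hyj : y ∈ (L j).carrier := ((L j).mem_of_lt _ _ hlj).1
        have hxj : x ∈ (L j).carrier := by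
          have : j ∈ S x := by rw [h1, ← h2]; exact hyj
          exact this
        exact (L j).trans _ _ _ ((L j).lt_of_lt _ hxj _ hyj hxy) hlj
      · by_cases hxz : x < z
        · exact Or.inl hxz
        have hzx : ¬ z ≤ x := fun h => hyx (hyz.le.trans h)
        have hxz' : ¬ x ≤ z := fun h => (lt_or_eq_of_le h).elim hxz (fun e => hzx e.ge)
        refine Or.inr ⟨hxz', hzx, i, hi, ?_⟩
        have h1 := (key x z hxz' hzx).1
        have hzi : z ∈ (L i).carrier := by
          have : i ∈ S z := by rw [← h1]; exact ((L i).mem_of_lt _ _ hli).1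
          exact this
        exact (L i).trans _ _ _ hli ((L i).lt_of_lt _ ((L i).mem_of_lt _ _ hli).2 _ hzi hyz)
      · have h1 := (key x y hxy hyx).1
        have hij : i = j := by
          rw [h1, hj] at hi
          exact (Option.some.inj hi).symm
        subst hij
        have hl := (L i).trans _ _ _ hli hlj
        by_cases hxz : x < z
        · exact Or.inl hxz
        have hzx : ¬ z ≤ x := by
          intro h
          rcases lt_or_eq_of_le h with h | h
          · exact (L i).irrefl _ ((L i).trans _ _ _ hl ((L i).lt_of_lt _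
              ((L i).mem_of_lt _ _ hl).2 _ ((L i).mem_of_lt _ _ hl).1 h))
          · rw [h] at hl
            exact (L i).irrefl _ hl
        exact Or.inr ⟨fun h => (lt_or_eq_of_le h).elim hxz (fun e => hzx e.ge), hzx, i, hi, hl⟩
    · intro x _ y _ hne
      by_cases h1 : x ≤ y
      · exact Or.inl (Or.inl (lt_of_le_of_ne h1 hne))
      by_cases h2 : y ≤ x
      · exact Or.inr (Or.inl (lt_of_le_of_ne h2 hne.symm))
      obtain ⟨i, hi, him⟩ := hcS x y h1 h2
      have hS := (key x y h1 h2).1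
      have hiy : i ∈ S y := by rw [← hS]; exact him
      rcases (L i).total x him y hiy hne with h | h
      · exact Or.inl (Or.inr ⟨h1, h2, i, hi, h⟩)
      · exact Or.inr (Or.inr ⟨h2, h1, i, by rw [← hS]; exact hi, h⟩)
    · intro x _ y _ h
      exact Or.inl h
  obtain ⟨M1, hM1, hM1'⟩ := mk c1 (by
    intro x y hxy hyx
    obtain ⟨-, i, j, h1, h2, h3⟩ := key x y hxy hyx
    exact ⟨i, h1, by rw [h3]; exact Or.inl rfl⟩)
  obtain ⟨M2, hM2, hM2'⟩ := mk c2 (by
    intro x y hxy hyx
    obtain ⟨-, i, j, h1, h2, h3⟩ := key x y hxy hyx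
    exact ⟨j, h2, by rw [h3]; exact Or.inr rfl⟩)
  refine ⟨![M1, M2], ⟨?_, ?_⟩, ?_⟩
  · intro x y hxy
    refine ⟨0, ?_⟩
    show M1.lt x y
    rw [hM1']
    exact Or.inl hxy
  · intro x y hxy hyx
    obtain ⟨hS, i, j, h1, h2, h3⟩ := key x y hxy hyx
    obtain ⟨k, hk⟩ := hL.2 x y hxy hyx
    have hkx : k ∈ S x := ((L k).mem_of_lt _ _ hk).2
    rw [h3] at hkx
    rcases hkx with rfl | rfl
    · refine ⟨0, ?_⟩
      show M1.lt y x
      rw [hM1']
      exact Or.inr ⟨hyx, hxy, k, by rw [← hS]; exact h1, hk⟩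
    · refine ⟨1, ?_⟩
      show M2.lt y x
      rw [hM2']
      exact Or.inr ⟨hyx, hxy, k, by rw [← hS]; exact h2, hk⟩
  · intro i
    fin_cases i
    · exact hM1
    · exact hM2

end general

end Pool.Agent.Y345.LD
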