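import Pool.Agent.Y345.LD.Std

/-!
# The joint spectrum of width, dimension and local dimension
-/

set_option autoImplicit false

namespace Pool.Agent.Y345.LD

open Pool.Agent.Results.MP_33e188_co.MaxLocalDimension Pool.Agent.H713R3.LDim

section
variable {P : Type*} [PartialOrder P]

theorem exists_incomparable {w : ℕ} (hw : 2 ≤ w) (h : width P = w) :
    ∃ x y : P, ¬ x ≤ y ∧ ¬ y ≤ x := by
  classical
  by_contra hcon
  push Not at hcon
  have h1 : width P ≤ 1 := by
    apply width_le_of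
    intro A hA
    rw [Finset.card_le_one]
    intro a ha b hb
    by_contra hne
    by_cases hab : a ≤ b
    · exact hA ha hb hne hab
    · exact hA hb ha (Ne.symm hne) (hcon a b hab)
  omega

theorem ldim_le {t : ℕ} (h : Loc P t) : ldim P ≤ t := Nat.sInf_le h

theorem dim_le {t : ℕ} (h : Rz P t) : dim P ≤ t := Nat.sInf_le h

theorem loc_ldim [Finite P] : Loc P (ldim P) := ldim_spec

theorem rz_dim [Finite P] : Rz P (dim P) := by
  have hne : {t : ℕ | ∃ L : Fin t → PartialLinearExtension P,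
      IsLocalRealizer L ∧ ∀ i, (L i).carrier = Set.univ}.Nonempty :=
    ⟨_, rz_of_width (max 1 (width P)) (le_max_left _ _) (le_max_right _ _)⟩
  exact Nat.sInf_mem hne

/-- the necessary conditions -/
theorem necessary [Finite P] {w : ℕ} (hw : 2 ≤ w) (h : width P = w) :
    (dim P = 2 ∧ ldim P = 2) ∨ (3 ≤ ldim P ∧ ldim P ≤ dim P ∧ dim P ≤ w) := by
  obtain ⟨x, y, hxy, hyx⟩ := exists_incomparable hw h
  have h2 : 2 ≤ ldim P := loc_two hxy hyx loc_ldim
  have h3 : ldim P ≤ dim P := ldim_le rz_dim.loc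
  have h4 : dim P ≤ w := dim_le (rz_of_width w (by omega) h.le)
  rcases Nat.lt_or_ge 2 (ldim P) with h5 | h5
  · exact Or.inr ⟨h5, h3, h4⟩
  · have h6 : ldim P = 2 := le_antisymm h5 h2
    have h7 : dim P ≤ 2 := dim_le (rz_two (by
      have := loc_ldim (P := P)
      rwa [h6] at this))
    exact Or.inl ⟨by omega, h6⟩

end

/-- a finite poset of width `w` and local dimension `w` -/
theorem exists_full (w : ℕ) (hw : 2 ≤ w) : ∃ (P : Type) (_ : PartialOrder P) (_ : Finite P),
    width P = w ∧ ∀ (n : ℕ) (L : Fin n → PartialLinearExtension P),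
      IsLocalRealizer L → ∃ x, w ≤ Nat.card {i : Fin n // x ∈ (L i).carrier} := by
  obtain ⟨N, hN⟩ := not_realizer w hw
  exact ⟨FP w (w * (w - 1) + 2) (N + 1), inferInstance, inferInstance,
    width_FP w _ N (by omega), hN⟩

theorem le_of_full {P : Type} [PartialOrder P] {w t : ℕ}
    (h : ∀ (n : ℕ) (L : Fin n → PartialLinearExtension P),
      IsLocalRealizer L → ∃ x, w ≤ Nat.card {i : Fin n // x ∈ (L i).carrier}) (ht : Loc P t) :
    w ≤ t := by
  obtain ⟨n, L, hL, hc⟩ := ht
  obtain ⟨x, hx⟩ := h n L hL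
  exact hx.trans (hc x)

theorem sufficient {w δ d : ℕ} (hd : 3 ≤ d) (hdδ : d ≤ δ) (hδ : δ ≤ w) :
    ∃ (P : Type) (_ : PartialOrder P) (_ : Finite P), (width P = w ∧ dim P = δ ∧ ldim P = d) ∧
      Rz P δ ∧ Good P d := by
  obtain ⟨F, iF, fF, hF1, hF2⟩ := exists_full d (by omega)
  have r1 : Rz F d := rz_of_width d (by omega) hF1.le
  have r2 : Rz (Std δ) δ := rz_of_width δ (by omega) (Std.width_le (by omega))
  have r3 : Rz (Anti w) 2 := Anti.rz w
  have R : Rz (OS F (OS (Std δ) (Anti w))) δ :=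
    Rz.os (by omega) (r1.mono (by omega) hdδ)
      (Rz.os (by omega) r2 (r3.mono (by omega) (by omega)))
  have G : Good (OS F (OS (Std δ) (Anti w))) d :=
    Good.os (r1.good (by omega)) (Good.os ((Std.good δ).mono hd)
      ((r3.good (by omega)).mono (by omega)))
  let eF : F ↪o OS F (OS (Std δ) (Anti w)) := OS.inl
  let eS : Std δ ↪o OS F (OS (Std δ) (Anti w)) := (OS.inl).trans OS.inr
  let eA : Anti w ↪o OS F (OS (Std δ) (Anti w)) := (OS.inr).trans OS.inr
  refine ⟨OS F (OS (Std δ) (Anti w)), inferInstance, inferInstance, ⟨?_, ?_, ?_⟩, R, G⟩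
  · apply le_antisymm
    · apply OS.width_le (by omega)
      apply OS.width_le ((Std.width_le (by omega)).trans hδ) (Anti.width w).le
    · exact (Anti.width w).ge.trans (width_le_of_embedding eA)
  · apply le_antisymm (dim_le R)
    exact Std.not_rz (rz_dim.of_embedding eS)
  · apply le_antisymm (ldim_le G.loc)
    exact le_of_full hF2 (loc_ldim.of_embedding eF)

theorem anti_spec {w : ℕ} (hw : 2 ≤ w) : width (Anti w) = w ∧ dim (Anti w) = 2 ∧
    ldim (Anti w) = 2 := by
  have h1 := Anti.width w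
  have h2 := dim_le (Anti.rz w)
  rcases necessary hw h1 with h | h
  · exact ⟨h1, h⟩
  · omega

/-- **The joint spectrum.** -/
theorem spectrum {w : ℕ} (hw : 2 ≤ w) (δ d : ℕ) :
    (∃ (P : Type) (_ : PartialOrder P) (_ : Finite P), width P = w ∧ dim P = δ ∧ ldim P = d) ↔
      (δ = 2 ∧ d = 2) ∨ (3 ≤ d ∧ d ≤ δ ∧ δ ≤ w) := by
  constructor
  · rintro ⟨P, iP, fP, h1, rfl, rfl⟩
    exact necessary hw h1
  · rintro (⟨rfl, rfl⟩ | ⟨h1, h2, h3⟩)
    · exact ⟨Anti w, inferInstance, inferInstance, anti_spec hw⟩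
    · obtain ⟨P, iP, fP, h4, -, -⟩ := sufficient h1 h2 h3
      exact ⟨P, iP, fP, h4⟩

/-- stacked copies of `P`: deleting `M` elements leaves a whole copy -/
theorem stack {P : Type} [PartialOrder P] [Finite P] {w δ d : ℕ} (hw : width P ≤ w)
    (hδ : 1 ≤ δ) (R : Rz P δ) (G : Good P d) (M : ℕ) :
    ∃ (Q : Type) (_ : PartialOrder Q) (_ : Finite Q), Nat.card Q = (M + 1) * Nat.card P ∧
      width Q ≤ w ∧ Rz Q δ ∧ Good Q d ∧
      ∀ D : Finset Q, D.card ≤ M → Nonempty (P ↪o {x : Q // x ∉ D}) := by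
  classical
  induction M with
  | zero =>
    refine ⟨P, inferInstance, inferInstance, by simp, hw, R, G, fun D hD => ?_⟩
    have hD' : D = ∅ := Finset.card_eq_zero.1 (Nat.le_zero.1 hD)
    subst hD'
    exact ⟨⟨⟨fun x => ⟨x, Finset.notMem_empty x⟩, fun x y h => congrArg Subtype.val h⟩, Iff.rfl⟩⟩
  | succ M ih =>
    obtain ⟨Q, iQ, fQ, h0, h1, h2, h3, h4⟩ := ih
    have hcQ : Nat.card (OS P Q) = (M + 1 + 1) * Nat.card P := by
      have : Nat.card (OS P Q) = Nat.card P + Nat.card Q := Nat.card_sum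
      rw [this, h0]
      ring
    refine ⟨OS P Q, inferInstance, inferInstance, hcQ, OS.width_le hw h1, Rz.os hδ R h2,
      Good.os G h3, fun D hD => ?_⟩
    by_cases h : ∃ a : P, (OS.inl a : OS P Q) ∈ D
    · obtain ⟨a, ha⟩ := h
      let B : Finset Q := D.preimage (OS.inr : Q ↪o OS P Q) OS.inr.injective.injOn
      have hmem : ∀ x : Q, x ∈ B ↔ (OS.inr x : OS P Q) ∈ D := fun x => Finset.mem_preimage
      have hsub : insert (OS.inl a : OS P Q) (B.image (OS.inr : Q ↪o OS P Q)) ⊆ D := by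
        intro x hx
        rw [Finset.mem_insert, Finset.mem_image] at hx
        rcases hx with rfl | ⟨b, hb, rfl⟩
        · exact ha
        · exact (hmem b).1 hb
      have hnot : (OS.inl a : OS P Q) ∉ B.image (OS.inr : Q ↪o OS P Q) := by
        rw [Finset.mem_image]
        rintro ⟨b, -, hb⟩
        exact OS.not_inr_le_inl a b hb.le
      have hcard := Finset.card_le_card hsub
      rw [Finset.card_insert_of_notMem hnot,
        Finset.card_image_of_injective _ (OS.inr : Q ↪o OS P Q).injective] at hcard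
      obtain ⟨e⟩ := h4 B (by omega)
      refine ⟨⟨⟨fun x => ⟨OS.inr (e x).1, fun hx => (e x).2 ((hmem _).2 hx)⟩, ?_⟩, ?_⟩⟩
      · intro x y hxy
        have h5 := OS.inr.injective (congrArg Subtype.val hxy)
        exact e.injective (Subtype.ext h5)
      · intro x y
        exact (OS.inr.le_iff_le (a := (e x).1) (b := (e y).1)).trans
          (e.le_iff_le (a := x) (b := y))
    · refine ⟨⟨⟨fun x => ⟨OS.inl x, fun hx => h ⟨x, hx⟩⟩, ?_⟩, ?_⟩⟩
      · intro x y hxy
        exact OS.inl.injective (congrArg Subtype.val hxy)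
      · intro x y
        exact OS.inl.le_iff_le (a := x) (b := y)

theorem stack_spec {P : Type} [PartialOrder P] [Finite P] {w δ d : ℕ} (hw : width P = w)
    (hw1 : 1 ≤ w) (hδ : 1 ≤ δ) (R : Rz P δ) (G : Good P d) (hdim : dim P = δ)
    (hld : ldim P = d) :
    ∃ K : ℕ, ∀ N : ℕ, ∃ (Q : Type) (_ : PartialOrder Q) (_ : Finite Q), N ≤ Nat.card Q ∧
      ∀ D : Finset Q, K * D.card ≤ Nat.card Q →
      width {x : Q // x ∉ D} = w ∧ dim {x : Q // x ∉ D} = δ ∧ ldim {x : Q // x ∉ D} = d := by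
  have hP : 1 ≤ Nat.card P := by
    have : Nonempty P := by
      by_contra hne
      rw [not_nonempty_iff] at hne
      have : width P ≤ 0 := width_le_of (fun A _ => by
        rw [Finset.eq_empty_of_isEmpty A]; simp)
      omega
    exact Nat.card_pos
  refine ⟨2 * Nat.card P, fun N => ?_⟩
  obtain ⟨Q, iQ, fQ, h0, h1, h2, h3, h4⟩ := stack hw.le hδ R G (N + 1)
  refine ⟨Q, iQ, fQ, ?_, fun D hD => ?_⟩
  · rw [h0]
    nlinarith
  have hDN : D.card ≤ N + 1 := by
    rw [h0] at hD
    have h5 : Nat.card P * (2 * D.card) ≤ Nat.card P * (N + 1 + 1) := by nlinarith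
    have h6 := Nat.le_of_mul_le_mul_left h5 hP
    omega
  obtain ⟨e⟩ := h4 D hDN
  let s : {x : Q // x ∉ D} ↪o Q := OrderEmbedding.subtype _
  refine ⟨?_, ?_, ?_⟩
  · exact le_antisymm ((width_le_of_embedding s).trans h1)
      (hw.ge.trans (width_le_of_embedding e))
  · apply le_antisymm (dim_le (h2.of_embedding s))
    rw [← hdim]
    exact dim_le (rz_dim.of_embedding e)
  · apply le_antisymm (ldim_le (h3.loc.of_embedding s))
    rw [← hld]
    exact ldim_le (loc_ldim.of_embedding e)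

/-- **Every triple of the joint spectrum is attained robustly.** -/
theorem robust {w : ℕ} (hw : 2 ≤ w) {δ d : ℕ}
    (h : (δ = 2 ∧ d = 2) ∨ (3 ≤ d ∧ d ≤ δ ∧ δ ≤ w)) :
    ∃ K : ℕ, ∀ N : ℕ, ∃ (Q : Type) (_ : PartialOrder Q) (_ : Finite Q), N ≤ Nat.card Q ∧
      ∀ D : Finset Q, K * D.card ≤ Nat.card Q →
      width {x : Q // x ∉ D} = w ∧ dim {x : Q // x ∉ D} = δ ∧ ldim {x : Q // x ∉ D} = d := by
  rcases h with ⟨rfl, rfl⟩ | ⟨h1, h2, h3⟩
  · obtain ⟨a, b, c⟩ := anti_spec hw
    exact stack_spec a (by omega) (by norm_num) (Anti.rz w) ((Anti.rz w).good (by norm_num)) b c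
  · obtain ⟨P, iP, fP, ⟨a, b, c⟩, R, G⟩ := sufficient h1 h2 h3
    exact stack_spec a (by omega) (by omega) R G b c

/-- the case of width one -/
theorem spectrum_one (δ d : ℕ) :
    (∃ (P : Type) (_ : PartialOrder P) (_ : Finite P), width P = 1 ∧ dim P = δ ∧ ldim P = d) ↔
      δ = d ∧ d ≤ 1 := by
  constructor
  · rintro ⟨P, iP, fP, h1, rfl, rfl⟩
    have h2 : dim P ≤ 1 := dim_le (rz_of_width 1 le_rfl h1.le)
    have h3 : ldim P ≤ dim P := ldim_le rz_dim.loc
    rcases Nat.eq_zero_or_pos (ldim P) with h4 | h4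
    · have h5 : Rz P 0 := by
        obtain ⟨n, L, hL, hc⟩ := loc_ldim (P := P)
        have hno : ∀ (i : Fin n) (x : P), x ∉ (L i).carrier := by
          intro i x hx
          have := hc x
          rw [h4] at this
          have hpos : 0 < Nat.card {i : Fin n // x ∈ (L i).carrier} := by
            have : Nonempty {i : Fin n // x ∈ (L i).carrier} := ⟨⟨i, hx⟩⟩
            exact Nat.card_pos
          omega
        refine ⟨fun i => i.elim0, ⟨?_, ?_⟩, fun i => i.elim0⟩
        · intro x y hxy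
          obtain ⟨i, hi⟩ := hL.1 x y hxy
          exact (hno i x ((L i).mem_of_lt _ _ hi).1).elim
        · intro x y hxy hyx
          obtain ⟨i, hi⟩ := hL.2 x y hxy hyx
          exact (hno i x ((L i).mem_of_lt _ _ hi).2).elim
      have h6 := dim_le h5
      omega
    · omega
  · rintro ⟨rfl, h⟩
    have h01 : δ = 0 ∨ δ = 1 := by omega
    rcases h01 with rfl | rfl
    · have h5 : Rz (Anti 1) 0 := by
        refine ⟨fun i => i.elim0, ⟨?_, ?_⟩, fun i => i.elim0⟩
        · intro x y hxy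
          exact absurd (show x = y from hxy.le) hxy.ne
        · intro x y hxy
          exact absurd (show x = y from Subsingleton.elim (α := Fin 1) x y) hxy
      refine ⟨Anti 1, inferInstance, inferInstance, Anti.width 1, ?_, ?_⟩
      · exact Nat.le_zero.1 (dim_le h5)
      · exact Nat.le_zero.1 (ldim_le h5.loc)
    · obtain ⟨h1, h2⟩ := one_case
      refine ⟨Fin 2, inferInstance, inferInstance, h1, ?_, h2⟩
      have h3 : dim (Fin 2) ≤ 1 := dim_le (rz_of_width 1 le_rfl h1.le)
      have h4 : ldim (Fin 2) ≤ dim (Fin 2) := ldim_le rz_dim.loc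
      omega

end Pool.Agent.Y345.LD
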