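import Pool.Agent.Y345.LD.Sum

/-!
# The standard examples and the antichains
-/

set_option autoImplicit false

namespace Pool.Agent.Y345.LD

open Pool.Agent.Results.MP_33e188_co.MaxLocalDimension

/-! ### standard examples -/

/-- the standard example: minimal elements `(false, i)`, maximal elements `(true, i)`, and
`(false, i) < (true, j)` for `i ≠ j` -/
def Std (n : ℕ) : Type := Bool × Fin n

instance (n : ℕ) : Finite (Std n) := inferInstanceAs (Finite (Bool × Fin n))

instance (n : ℕ) : PartialOrder (Std n) where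
  le x y := x = y ∨ (x.1 = false ∧ y.1 = true ∧ x.2 ≠ y.2)
  le_refl x := Or.inl rfl
  le_trans := by
    rintro x y z (rfl | ⟨h1, h2, h3⟩) (rfl | ⟨h4, h5, h6⟩)
    · exact Or.inl rfl
    · exact Or.inr ⟨h4, h5, h6⟩
    · exact Or.inr ⟨h1, h2, h3⟩
    · rw [h2] at h4; exact absurd h4 (by simp)
  le_antisymm := by
    rintro x y (rfl | ⟨h1, h2, h3⟩) (h | ⟨h4, h5, h6⟩)
    · rfl
    · rfl
    · exact h.symm
    · rw [h2] at h4; exact absurd h4 (by simp)

theorem Std.le_iff {n : ℕ} (x y : Std n) :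
    x ≤ y ↔ x = y ∨ (x.1 = false ∧ y.1 = true ∧ x.2 ≠ y.2) := Iff.rfl

theorem Std.lt_iff {n : ℕ} (x y : Std n) :
    x < y ↔ (x.1 = false ∧ y.1 = true ∧ x.2 ≠ y.2) := by
  rw [lt_iff_le_not_ge, Std.le_iff, Std.le_iff]
  constructor
  · rintro ⟨h | h, h'⟩
    · exact absurd (Or.inl h.symm) h'
    · exact h
  · intro h
    refine ⟨Or.inr h, ?_⟩
    rintro (h' | h')
    · rw [h'] at h; exact h.2.2 rfl
    · rw [h.1] at h'; exact absurd h'.2.1 (by simp)

theorem Std.ext' {n : ℕ} {x y : Std n} (h1 : x.1 = y.1) (h2 : x.2 = y.2) : x = y :=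
  Prod.ext h1 h2

theorem Std.width_le {n : ℕ} (hn : 2 ≤ n) : width (Std n) ≤ n := by
  classical
  apply width_le_of
  intro A hA
  by_cases h : Set.InjOn (fun x : Std n => x.2) (A : Set (Std n))
  · calc A.card = (A.image fun x : Std n => x.2).card := (Finset.card_image_of_injOn h).symm
      _ ≤ Fintype.card (Fin n) := Finset.card_le_univ _
      _ = n := Fintype.card_fin n
  · rw [Set.InjOn] at h
    push Not at h
    obtain ⟨x, hx, y, hy, hxy, hne⟩ := h
    have h1 : x.1 ≠ y.1 := fun e => hne (Std.ext' e hxy)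
    refine le_trans ?_ hn
    have hsub : A ⊆ {x, y} := by
      intro z hz
      rw [Finset.mem_insert, Finset.mem_singleton]
      by_contra hcon
      push Not at hcon
      have hz2 : z.2 = x.2 := by
        by_contra h2
        have hxz : z.1 ≠ x.1 ∨ z.1 ≠ y.1 := by
          by_contra h3
          push Not at h3
          exact h1 (h3.1.symm.trans h3.2)
        rcases hxz with h3 | h3
        · cases hzb : z.1 <;> cases hxb : x.1
          · exact h3 (hzb.trans hxb.symm)
          · exact hA hz hx hcon.1 (Or.inr ⟨hzb, hxb, h2⟩)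
          · exact hA hx hz (Ne.symm hcon.1) (Or.inr ⟨hxb, hzb, Ne.symm h2⟩)
          · exact h3 (hzb.trans hxb.symm)
        · have h2' : z.2 ≠ y.2 := fun e => h2 (e.trans hxy.symm)
          cases hzb : z.1 <;> cases hxb : y.1
          · exact h3 (hzb.trans hxb.symm)
          · exact hA hz hy hcon.2 (Or.inr ⟨hzb, hxb, h2'⟩)
          · exact hA hy hz (Ne.symm hcon.2) (Or.inr ⟨hxb, hzb, Ne.symm h2'⟩)
          · exact h3 (hzb.trans hxb.symm)
      have hb : z.1 = x.1 ∨ z.1 = y.1 := by
        revert h1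
        cases z.1 <;> cases x.1 <;> cases y.1 <;> simp
      rcases hb with hb | hb
      · exact hcon.1 (Std.ext' hb hz2)
      · exact hcon.2 (Std.ext' hb (hz2.trans hxy))
    calc A.card ≤ ({x, y} : Finset (Std n)).card := Finset.card_le_card hsub
      _ ≤ 2 := Finset.card_le_two

/-- a linear extension of the standard example from an order of the indices -/
def Std.lin {n : ℕ} (r : Fin n → Fin n → Prop) (h1 : ∀ i, ¬ r i i)
    (h2 : ∀ i j k, r i j → r j k → r i k) (h3 : ∀ i j, i ≠ j → r i j ∨ r j i) :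
    PartialLinearExtension (Std n) where
  carrier := Set.univ
  lt x y := (x.1 = false ∧ y.1 = true) ∨ (x.1 = y.1 ∧ r x.2 y.2)
  mem_of_lt _ _ _ := ⟨trivial, trivial⟩
  irrefl := by
    rintro x (h | h)
    · rw [h.1] at h; exact absurd h.2 (by simp)
    · exact h1 _ h.2
  trans := by
    rintro x y z (h | h) (h' | h')
    · exact Or.inl ⟨h.1, h'.2⟩
    · exact Or.inl ⟨h.1, h'.1.symm.trans h.2⟩
    · exact Or.inl ⟨h.1.trans h'.1, h'.2⟩
    · exact Or.inr ⟨h.1.trans h'.1, h2 _ _ _ h.2 h'.2⟩
  total := by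
    intro x _ y _ hne
    cases hx : x.1 <;> cases hy : y.1
    · rcases h3 x.2 y.2 (fun e => hne (Std.ext' (hx.trans hy.symm) e)) with h | h
      · exact Or.inl (Or.inr ⟨rfl, h⟩)
      · exact Or.inr (Or.inr ⟨rfl, h⟩)
    · exact Or.inl (Or.inl ⟨rfl, rfl⟩)
    · exact Or.inr (Or.inl ⟨rfl, rfl⟩)
    · rcases h3 x.2 y.2 (fun e => hne (Std.ext' (hx.trans hy.symm) e)) with h | h
      · exact Or.inl (Or.inr ⟨rfl, h⟩)
      · exact Or.inr (Or.inr ⟨rfl, h⟩)
  lt_of_lt := by
    intro x _ y _ h
    rw [Std.lt_iff] at h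
    exact Or.inl ⟨h.1, h.2.1⟩

/-- the partial linear extension `(true, i) < (false, i)` -/
def Std.two {n : ℕ} (i : Fin n) : PartialLinearExtension (Std n) where
  carrier := {x | x.2 = i}
  lt x y := x.1 = true ∧ y.1 = false ∧ x.2 = i ∧ y.2 = i
  mem_of_lt _ _ h := ⟨h.2.2.1, h.2.2.2⟩
  irrefl x h := by rw [h.1] at h; exact absurd h.2.1 (by simp)
  trans x y z h h' := by rw [h.2.1] at h'; exact absurd h'.1 (by simp)
  total := by
    intro x hx y hy hne
    cases hxb : x.1 <;> cases hyb : y.1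
    · exact absurd (Std.ext' (hxb.trans hyb.symm) (Eq.trans hx (Eq.symm hy))) hne
    · exact Or.inr ⟨rfl, rfl, hy, hx⟩
    · exact Or.inl ⟨rfl, rfl, hx, hy⟩
    · exact absurd (Std.ext' (hxb.trans hyb.symm) (Eq.trans hx (Eq.symm hy))) hne
  lt_of_lt := by
    intro x hx y hy h
    rw [Std.lt_iff] at h
    exact absurd (Eq.trans hx (Eq.symm hy)) h.2.2

theorem Std.good (n : ℕ) : Good (Std n) 3 := by
  classical
  let L1 : PartialLinearExtension (Std n) := Std.lin (fun i j => i < j) (fun i => lt_irrefl i)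
    (fun i j k => lt_trans) (fun i j h => lt_or_gt_of_ne h)
  let L2 : PartialLinearExtension (Std n) := Std.lin (fun i j => j < i) (fun i => lt_irrefl i)
    (fun i j k h1 h2 => lt_trans h2 h1) (fun i j h => (lt_or_gt_of_ne h).symm)
  let N : Bool ⊕ Fin n → PartialLinearExtension (Std n) := fun j => match j with
    | .inl false => L1
    | .inl true => L2
    | .inr i => Std.two i
  refine ⟨Bool ⊕ Fin n, inferInstance, N, .inl false, ⟨?_, ?_⟩, rfl, ?_⟩
  · intro x y hxy
    exact ⟨.inl false, L1.lt_of_lt x trivial y trivial hxy⟩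
  · intro x y hxy hyx
    rw [Std.le_iff] at hxy hyx
    push Not at hxy hyx
    cases hx : x.1 <;> cases hy : y.1
    · have hne : x.2 ≠ y.2 := fun e => hxy.1 (Std.ext' (hx.trans hy.symm) e)
      rcases lt_or_gt_of_ne hne with h | h
      · exact ⟨.inl true, Or.inr ⟨hy.trans hx.symm, h⟩⟩
      · exact ⟨.inl false, Or.inr ⟨hy.trans hx.symm, h⟩⟩
    · have h := hxy.2 hx hy
      exact ⟨.inr x.2, hy, hx, h.symm, rfl⟩
    · exact ⟨.inl false, Or.inl ⟨hy, hx⟩⟩
    · have hne : x.2 ≠ y.2 := fun e => hxy.1 (Std.ext' (hx.trans hy.symm) e)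
      rcases lt_or_gt_of_ne hne with h | h
      · exact ⟨.inl true, Or.inr ⟨hy.trans hx.symm, h⟩⟩
      · exact ⟨.inl false, Or.inr ⟨hy.trans hx.symm, h⟩⟩
  · intro x
    have h1 : {j : Bool ⊕ Fin n | x ∈ (N j).carrier} ⊆
        (({.inl false, .inl true, .inr x.2} : Finset (Bool ⊕ Fin n)) : Set (Bool ⊕ Fin n)) := by
      rintro ((_ | _) | i) hj
      · simp
      · simp
      · have : x.2 = i := hj
        simp [this]
    have h2 := Set.ncard_le_ncard h1 (Finset.finite_toSet _)
    rw [Set.ncard_coe_finset] at h2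
    exact h2.trans Finset.card_le_three

/-- constructor -/
def Std.mk {n : ℕ} (b : Bool) (i : Fin n) : Std n := (b, i)

theorem Std.not_rz {n t : ℕ} (h : Rz (Std n) t) : n ≤ t := by
  obtain ⟨L, hL, hu⟩ := h
  have h1 : ∀ i : Fin n, ∃ k : Fin t, (L k).lt (Std.mk true i) (Std.mk false i) := by
    intro i
    apply hL.2 (Std.mk false i) (Std.mk true i)
    · intro h
      rcases (Std.le_iff _ _).1 h with h | h
      · exact absurd (congrArg Prod.fst h) (by simp [Std.mk])
      · exact h.2.2 rfl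
    · intro h
      rcases (Std.le_iff _ _).1 h with h | h
      · exact absurd (congrArg Prod.fst h) (by simp [Std.mk])
      · exact h.2.2 rfl
  choose k hk using h1
  have hinj : Function.Injective k := by
    intro i j hij
    by_contra hne
    have a1 : Std.mk false i < Std.mk true j := (Std.lt_iff _ _).2 ⟨rfl, rfl, hne⟩
    have a2 : Std.mk false j < Std.mk true i := (Std.lt_iff _ _).2 ⟨rfl, rfl, Ne.symm hne⟩
    have b1 := hk i
    have b2 := hk j
    rw [← hij] at b2
    have c1 := (L (k i)).lt_of_lt _ (by rw [hu]; trivial) _ (by rw [hu]; trivial) a1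
    have c2 := (L (k i)).lt_of_lt _ (by rw [hu]; trivial) _ (by rw [hu]; trivial) a2
    exact (L (k i)).irrefl _ ((L (k i)).trans _ _ _ c1 ((L (k i)).trans _ _ _ b2
      ((L (k i)).trans _ _ _ c2 b1)))
  simpa using Fintype.card_le_of_injective _ hinj

/-! ### antichains -/

/-- the antichain with `n` elements -/
def Anti (n : ℕ) : Type := Fin n

instance (n : ℕ) : Finite (Anti n) := inferInstanceAs (Finite (Fin n))

instance (n : ℕ) : PartialOrder (Anti n) where
  le x y := x = y
  le_refl _ := rfl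
  le_trans _ _ _ := Eq.trans
  le_antisymm _ _ h _ := h

theorem Anti.width (n : ℕ) : width (Anti n) = n := by
  classical
  have : Fintype (Anti n) := inferInstanceAs (Fintype (Fin n))
  have hc : Fintype.card (Anti n) = n := by
    rw [← Nat.card_eq_fintype_card]
    exact Nat.card_fin n
  apply le_antisymm
  · apply width_le_of
    intro A _
    exact (Finset.card_le_univ A).trans hc.le
  · have := card_le_width (P := Anti n) Finset.univ (by
      intro x _ y _ hxy h
      exact hxy h)
    rw [Finset.card_univ, hc] at this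
    exact this

/-- linear order on the antichain -/
def Anti.lin {n : ℕ} (r : Fin n → Fin n → Prop) (h1 : ∀ i, ¬ r i i)
    (h2 : ∀ i j k, r i j → r j k → r i k) (h3 : ∀ i j, i ≠ j → r i j ∨ r j i) :
    PartialLinearExtension (Anti n) where
  carrier := Set.univ
  lt x y := r x y
  mem_of_lt _ _ _ := ⟨trivial, trivial⟩
  irrefl := h1
  trans := h2
  total := fun x _ y _ h => h3 x y h
  lt_of_lt := fun x _ y _ h => absurd (show x = y from h.le) h.ne

theorem Anti.rz (n : ℕ) : Rz (Anti n) 2 := by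
  let L1 : PartialLinearExtension (Anti n) := Anti.lin (fun i j => i < j) (fun i => lt_irrefl i)
    (fun i j k => lt_trans) (fun i j h => lt_or_gt_of_ne h)
  let L2 : PartialLinearExtension (Anti n) := Anti.lin (fun i j => j < i) (fun i => lt_irrefl i)
    (fun i j k h1 h2 => lt_trans h2 h1) (fun i j h => (lt_or_gt_of_ne h).symm)
  refine ⟨![L1, L2], ⟨?_, ?_⟩, ?_⟩
  · intro x y h
    exact absurd (show x = y from h.le) h.ne
  · intro x y hxy _
    have hne : (x : Fin n) ≠ y := hxy
    rcases lt_or_gt_of_ne (α := Fin n) hne with h | h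
    · exact ⟨1, h⟩
    · exact ⟨0, h⟩
  · intro i
    fin_cases i <;> rfl

end Pool.Agent.Y345.LD
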