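import Pool.Agent.Y345.LD.Basic

/-!
# Ordinal sums, standard examples, antichains
-/

set_option autoImplicit false

namespace Pool.Agent.Y345.LD

open Pool.Agent.Results.MP_33e188_co.MaxLocalDimension

/-! ### widths -/

theorem width_le_of {P : Type*} [PartialOrder P] {w : ℕ}
    (h : ∀ A : Finset P, IsAntichain (· ≤ ·) (A : Set P) → A.card ≤ w) : width P ≤ w := by
  apply csSup_le
  · exact ⟨0, ∅, by simp, rfl⟩
  · rintro k ⟨A, hA, rfl⟩
    exact h A hA

theorem width_le_of_embedding {P Q : Type*} [PartialOrder P] [PartialOrder Q] [Finite Q]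
    (f : P ↪o Q) : width P ≤ width Q := by
  classical
  apply width_le_of
  intro A hA
  rw [← Finset.card_image_of_injective A f.injective]
  apply card_le_width
  intro x hx y hy hxy h
  simp only [Finset.coe_image, Set.mem_image] at hx hy
  obtain ⟨a, ha, rfl⟩ := hx
  obtain ⟨b, hb, rfl⟩ := hy
  exact hA ha hb (fun e => hxy (by rw [e])) (f.le_iff_le.1 h)

/-! ### ordinal sums -/

/-- the ordinal sum: `P` below `Q` -/
def OS (P Q : Type*) : Type _ := P ⊕ Q

instance {P Q : Type*} [Finite P] [Finite Q] : Finite (OS P Q) :=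
  inferInstanceAs (Finite (P ⊕ Q))

section
variable {P Q : Type*} [PartialOrder P] [PartialOrder Q]

/-- the order of the ordinal sum -/
def OS.le (x y : OS P Q) : Prop :=
  match x, y with
  | .inl a, .inl b => a ≤ b
  | .inl _, .inr _ => True
  | .inr _, .inl _ => False
  | .inr a, .inr b => a ≤ b

instance : PartialOrder (OS P Q) where
  le := OS.le
  le_refl := by
    rintro (a | a)
    · exact le_refl a
    · exact le_refl a
  le_trans := by
    rintro (a | a) (b | b) (c | c) h1 h2
    · exact le_trans (α := P) h1 h2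
    · trivial
    · exact h2.elim
    · trivial
    · exact h1.elim
    · exact h1.elim
    · exact h2.elim
    · exact le_trans (α := Q) h1 h2
  le_antisymm := by
    rintro (a | a) (b | b) h1 h2
    · exact congrArg Sum.inl (le_antisymm (α := P) h1 h2)
    · exact h2.elim
    · exact h1.elim
    · exact congrArg Sum.inr (le_antisymm (α := Q) h1 h2)

/-- the lower part -/
def OS.inl : P ↪o OS P Q where
  toFun := Sum.inl
  inj' := Sum.inl_injective
  map_rel_iff' := Iff.rfl

/-- the upper part -/
def OS.inr : Q ↪o OS P Q where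
  toFun := Sum.inr
  inj' := Sum.inr_injective
  map_rel_iff' := Iff.rfl

theorem OS.cases {C : OS P Q → Prop} (h1 : ∀ a : P, C (OS.inl a)) (h2 : ∀ b : Q, C (OS.inr b))
    (x : OS P Q) : C x := by
  rcases x with a | b
  · exact h1 a
  · exact h2 b

theorem OS.inl_le_inr (a : P) (b : Q) : (OS.inl a : OS P Q) ≤ OS.inr b := trivial

theorem OS.not_inr_le_inl (a : P) (b : Q) : ¬ (OS.inr b : OS P Q) ≤ OS.inl a := fun h => h

theorem OS.width_le [Finite P] [Finite Q] {w : ℕ} (hP : width P ≤ w) (hQ : width Q ≤ w) :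
    width (OS P Q) ≤ w := by
  classical
  apply width_le_of
  intro A hA
  by_cases h : ∃ a : P, (OS.inl a : OS P Q) ∈ A
  · obtain ⟨a, ha⟩ := h
    have hall : ∀ x ∈ A, ∃ b : P, OS.inl b = x := by
      intro x
      exact OS.cases (C := fun x => x ∈ A → ∃ b : P, OS.inl b = x) (fun b _ => ⟨b, rfl⟩)
        (fun b hb => (hA ha hb (fun e => OS.not_inr_le_inl a b e.ge) (OS.inl_le_inr a b)).elim) x
    let B : Finset P := A.preimage (OS.inl : P ↪o OS P Q) OS.inl.injective.injOn
    have hB : A = B.image (OS.inl : P ↪o OS P Q) := by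
      ext x
      simp only [B, Finset.mem_image, Finset.mem_preimage]
      constructor
      · intro hx
        obtain ⟨b, hb⟩ := hall x hx
        exact ⟨b, by rw [hb]; exact hx, hb⟩
      · rintro ⟨b, hb, rfl⟩
        exact hb
    have hBA : IsAntichain (· ≤ ·) (B : Set P) := by
      intro x hx y hy hxy h
      have hx' : (OS.inl x : OS P Q) ∈ A := by simpa [B] using hx
      have hy' : (OS.inl y : OS P Q) ∈ A := by simpa [B] using hy
      exact hA hx' hy' (fun e => hxy (OS.inl.injective e)) (OS.inl.le_iff_le.2 h)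
    rw [hB, Finset.card_image_of_injective _ OS.inl.injective]
    exact (card_le_width B hBA).trans hP
  · have hall : ∀ x ∈ A, ∃ b : Q, OS.inr b = x := by
      intro x
      exact OS.cases (C := fun x => x ∈ A → ∃ b : Q, OS.inr b = x)
        (fun b hb => (h ⟨b, hb⟩).elim) (fun b _ => ⟨b, rfl⟩) x
    let B : Finset Q := A.preimage (OS.inr : Q ↪o OS P Q) OS.inr.injective.injOn
    have hB : A = B.image (OS.inr : Q ↪o OS P Q) := by
      ext x
      simp only [B, Finset.mem_image, Finset.mem_preimage]
      constructor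
      · intro hx
        obtain ⟨b, hb⟩ := hall x hx
        exact ⟨b, by rw [hb]; exact hx, hb⟩
      · rintro ⟨b, hb, rfl⟩
        exact hb
    have hBA : IsAntichain (· ≤ ·) (B : Set Q) := by
      intro x hx y hy hxy h
      have hx' : (OS.inr x : OS P Q) ∈ A := by simpa [B] using hx
      have hy' : (OS.inr y : OS P Q) ∈ A := by simpa [B] using hy
      exact hA hx' hy' (fun e => hxy (OS.inr.injective e)) (OS.inr.le_iff_le.2 h)
    rw [hB, Finset.card_image_of_injective _ OS.inr.injective]
    exact (card_le_width B hBA).trans hQ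

/-- the relation of the concatenation of two partial linear extensions -/
def catLt (L : PartialLinearExtension P) (M : PartialLinearExtension Q) (x y : OS P Q) : Prop :=
  match x, y with
  | .inl a, .inl b => L.lt a b
  | .inl a, .inr b => a ∈ L.carrier ∧ b ∈ M.carrier
  | .inr _, .inl _ => False
  | .inr a, .inr b => M.lt a b

/-- the carrier of the concatenation -/
def catC (L : PartialLinearExtension P) (M : PartialLinearExtension Q) (x : OS P Q) : Prop :=
  match x with
  | .inl a => a ∈ L.carrier
  | .inr b => b ∈ M.carrier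

/-- the concatenation of two partial linear extensions -/
def cat (L : PartialLinearExtension P) (M : PartialLinearExtension Q) :
    PartialLinearExtension (OS P Q) where
  carrier := {x | catC L M x}
  lt := catLt L M
  mem_of_lt := by
    rintro (a | a) (b | b) h
    · exact L.mem_of_lt _ _ h
    · exact h
    · exact h.elim
    · exact M.mem_of_lt _ _ h
  irrefl := by
    rintro (a | a) h
    · exact L.irrefl _ h
    · exact M.irrefl _ h
  trans := by
    rintro (a | a) (b | b) (c | c) h1 h2
    · exact L.trans _ _ _ h1 h2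
    · exact ⟨(L.mem_of_lt _ _ h1).1, h2.2⟩
    · exact h2.elim
    · exact ⟨h1.1, (M.mem_of_lt _ _ h2).2⟩
    · exact h1.elim
    · exact h1.elim
    · exact h2.elim
    · exact M.trans _ _ _ h1 h2
  total := by
    rintro (a | a) ha (b | b) hb hne
    · exact L.total a ha b hb (fun h => hne (congrArg Sum.inl h))
    · exact Or.inl ⟨ha, hb⟩
    · exact Or.inr ⟨hb, ha⟩
    · exact M.total a ha b hb (fun h => hne (congrArg Sum.inr h))
  lt_of_lt := by
    rintro (a | a) ha (b | b) hb h
    · exact L.lt_of_lt a ha b hb ((OS.inl : P ↪o OS P Q).lt_iff_lt.1 h)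
    · exact ⟨ha, hb⟩
    · exact (OS.not_inr_le_inl b a h.le).elim
    · exact M.lt_of_lt a ha b hb ((OS.inr : Q ↪o OS P Q).lt_iff_lt.1 h)

theorem cat_univ {L : PartialLinearExtension P} {M : PartialLinearExtension Q}
    (hL : L.carrier = Set.univ) (hM : M.carrier = Set.univ) : (cat L M).carrier = Set.univ := by
  ext x
  simp only [Set.mem_univ, iff_true]
  refine OS.cases (fun a => ?_) (fun b => ?_) x
  · show a ∈ L.carrier
    rw [hL]; trivial
  · show b ∈ M.carrier
    rw [hM]; trivial

/-- the empty partial linear extension -/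
def emp (P : Type*) [PartialOrder P] : PartialLinearExtension P where
  carrier := ∅
  lt _ _ := False
  mem_of_lt _ _ h := h.elim
  irrefl _ h := h
  trans _ _ _ h _ := h
  total _ h := h.elim
  lt_of_lt _ h := h.elim

theorem Rz.os {t : ℕ} (ht : 1 ≤ t) (hP : Rz P t) (hQ : Rz Q t) : Rz (OS P Q) t := by
  obtain ⟨L, hL, hLu⟩ := hP
  obtain ⟨M, hM, hMu⟩ := hQ
  refine ⟨fun i => cat (L i) (M i), ⟨?_, ?_⟩, fun i => cat_univ (hLu i) (hMu i)⟩
  · intro x y hxy
    refine ⟨⟨0, ht⟩, (cat _ _).lt_of_lt x ?_ y ?_ hxy⟩ <;>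
      rw [cat_univ (hLu _) (hMu _)] <;> trivial
  · rintro (a | a) (b | b) h1 h2
    · exact hL.2 a b h1 h2
    · exact (h1 trivial).elim
    · exact (h2 trivial).elim
    · exact hM.2 a b h1 h2

theorem Good.os {t : ℕ} (hP : Good P t) (hQ : Good Q t) : Good (OS P Q) t := by
  classical
  obtain ⟨ι, hι, L, i0, hL, hLu, hLc⟩ := hP
  obtain ⟨κ, hκ, M, k0, hM, hMu, hMc⟩ := hQ
  let N : ι ⊕ κ → PartialLinearExtension (OS P Q) := fun j => match j with
    | .inl i => if i = i0 then cat (L i0) (M k0) else cat (L i) (emp Q)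
    | .inr k => if k = k0 then cat (emp P) (emp Q) else cat (emp P) (M k)
  have n1 : N (.inl i0) = cat (L i0) (M k0) := if_pos rfl
  have n2 : ∀ i, i ≠ i0 → N (.inl i) = cat (L i) (emp Q) := fun i h => if_neg h
  have n3 : N (.inr k0) = cat (emp P) (emp Q) := if_pos rfl
  have n4 : ∀ k, k ≠ k0 → N (.inr k) = cat (emp P) (M k) := fun i h => if_neg h
  have f1 : (N (.inl i0)).carrier = Set.univ := by rw [n1]; exact cat_univ hLu hMu
  have l1 : ∀ i a b, (L i).lt a b → (N (.inl i)).lt (.inl a) (.inl b) := by
    intro i a b h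
    by_cases hi : i = i0
    · subst hi; rw [n1]; exact h
    · rw [n2 i hi]; exact h
  have l2 : ∀ k a b, (M k).lt a b → ∃ j, (N j).lt (.inr a) (.inr b) := by
    intro k a b h
    by_cases hk : k = k0
    · subst hk; exact ⟨.inl i0, by rw [n1]; exact h⟩
    · exact ⟨.inr k, by rw [n4 k hk]; exact h⟩
  refine ⟨ι ⊕ κ, inferInstance, N, .inl i0, ⟨?_, ?_⟩, f1, ?_⟩
  · intro x y hxy
    refine ⟨.inl i0, (N (.inl i0)).lt_of_lt x ?_ y ?_ hxy⟩ <;> rw [f1] <;> trivial
  · rintro (a | a) (b | b) h1 h2
    · obtain ⟨i, hi⟩ := hL.2 a b h1 h2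
      exact ⟨.inl i, l1 i _ _ hi⟩
    · exact (h1 trivial).elim
    · exact (h2 trivial).elim
    · obtain ⟨k, hk⟩ := hM.2 a b h1 h2
      exact l2 k _ _ hk
  · rintro (a | b)
    · refine le_trans ?_ (hLc a)
      have hg : ∀ j : {j : ι ⊕ κ // (Sum.inl a : OS P Q) ∈ (N j).carrier},
          ∃ i : {i : ι // a ∈ (L i).carrier}, j.1 = .inl i.1 := by
        rintro ⟨j | k, hj⟩
        · refine ⟨⟨j, ?_⟩, rfl⟩
          by_cases hi : j = i0
          · rw [hi, hLu]; trivial
          · rw [n2 j hi] at hj; exact hj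
        · exfalso
          by_cases hk : k = k0
          · rw [hk, n3] at hj; exact hj
          · rw [n4 k hk] at hj; exact hj
      choose g hg using hg
      apply Nat.card_le_card_of_injective g
      intro j j' h
      apply Subtype.ext
      rw [hg j, hg j', h]
    · refine le_trans ?_ (hMc b)
      have hg : ∀ j : {j : ι ⊕ κ // (Sum.inr b : OS P Q) ∈ (N j).carrier},
          ∃ k : {k : κ // b ∈ (M k).carrier},
            j.1 = if k.1 = k0 then Sum.inl i0 else Sum.inr k.1 := by
        rintro ⟨j | k, hj⟩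
        · by_cases hi : j = i0
          · refine ⟨⟨k0, ?_⟩, ?_⟩
            · rw [hMu]; trivial
            · rw [if_pos rfl]
              exact congrArg Sum.inl hi
          · exfalso
            rw [n2 j hi] at hj; exact hj
        · by_cases hk : k = k0
          · exfalso
            rw [hk, n3] at hj; exact hj
          · refine ⟨⟨k, ?_⟩, ?_⟩
            · rw [n4 k hk] at hj; exact hj
            · rw [if_neg hk]
      choose g hg using hg
      apply Nat.card_le_card_of_injective g
      intro j j' h
      apply Subtype.ext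
      rw [hg j, hg j', h]

end

end Pool.Agent.Y345.LD
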